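import Pool.Agent.Lib.MP_f8c884_nt.Main

/-!
# MP_f8c884_nt: almost all integers are practical + polygonal

Definitions (`Practical`, `polygonal`, `Representable`, `exc`): `Pool/Agent/Lib/MP_f8c884_nt/Defs.lean`.
-/

set_option autoImplicit false

namespace Pool.Agent.Results.MP_f8c884_nt.AlmostAll

open Pool.Agent.Lib.MP_f8c884_nt

/-- Let `s > 3`, `s` not congruent to `0` or `4` modulo `12`. For some `c > 0` and all large `X`, at
most `X ^ (1 - c / log log X)` integers `N ≤ X` are not `s`-representable, and at most `X ^ (1 - c)`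
if `s - 2` has an odd prime factor (different from `3` in the case `4 ∣ s`). -/
theorem result (s : ℕ) (hs : 3 < s) (h0 : s % 12 ≠ 0) (h4 : s % 12 ≠ 4) :
    ∃ c : ℝ, 0 < c ∧ ∃ X₀ : ℕ, ∀ X : ℕ, X₀ ≤ X →
      (exc s X : ℝ) ≤ (X : ℝ) ^ (1 - c / Real.log (Real.log X)) ∧
      ((∃ p : ℕ, p.Prime ∧ p ≠ 2 ∧ p ∣ s - 2 ∧ (4 ∣ s → p ≠ 3)) →
        (exc s X : ℝ) ≤ (X : ℝ) ^ (1 - c)) := by
  obtain ⟨⟨c₁, hc₁, X₁, h₁⟩, h₂⟩ := main hs h0 h4
  have hmono : ∀ c c' : ℝ, c' ≤ c → ∀ X : ℕ, 3 ≤ X → 0 < Real.log (Real.log X) →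
      (X : ℝ) ^ (1 - c / Real.log (Real.log X)) ≤ (X : ℝ) ^ (1 - c' / Real.log (Real.log X)) := by
    intro c c' hcc X hX hL
    have hX1 : (1 : ℝ) ≤ X := by exact_mod_cast (by omega : 1 ≤ X)
    apply Real.rpow_le_rpow_of_exponent_le hX1
    have := div_le_div_of_nonneg_right hcc hL.le
    linarith
  have hlog : ∀ X : ℕ, 16 ≤ X → 0 < Real.log (Real.log X) := by
    intro X hX
    have h16 : (16 : ℝ) ≤ X := by exact_mod_cast hX
    have e1 : Real.exp 1 < X := by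
      have := Real.exp_one_lt_d9
      linarith
    have h1 : 1 < Real.log X := by
      rw [Real.lt_log_iff_exp_lt (by linarith)]
      exact e1
    exact Real.log_pos h1
  by_cases hp : ∃ p : ℕ, p.Prime ∧ p ≠ 2 ∧ p ∣ s - 2 ∧ (4 ∣ s → p ≠ 3)
  · obtain ⟨c₂, hc₂, X₂, h₂⟩ := h₂ hp
    refine ⟨min c₁ c₂, lt_min hc₁ hc₂, max 16 (max X₁ X₂), fun X hX => ⟨?_, fun _ => ?_⟩⟩
    · have hX16 : 16 ≤ X := le_trans (le_max_left _ _) hX
      have hX1 : X₁ ≤ X := le_trans (le_trans (le_max_left _ _) (le_max_right _ _)) hX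
      exact (h₁ X hX1).trans (hmono _ _ (min_le_left _ _) X (by omega) (hlog X hX16))
    · have hX16 : 16 ≤ X := le_trans (le_max_left _ _) hX
      have hX2 : X₂ ≤ X := le_trans (le_trans (le_max_right _ _) (le_max_right _ _)) hX
      refine (h₂ X hX2).trans ?_
      have hX1 : (1 : ℝ) ≤ X := by exact_mod_cast (by omega : 1 ≤ X)
      apply Real.rpow_le_rpow_of_exponent_le hX1
      linarith [min_le_right c₁ c₂]
  · exact ⟨c₁, hc₁, X₁, fun X hX => ⟨h₁ X hX, fun h => absurd h hp⟩⟩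

end Pool.Agent.Results.MP_f8c884_nt.AlmostAll
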